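import Pool.Agent.H17.KE.Fin

/-! The locus where an element of a residue field is not a unit of the local ring. -/

open CategoryTheory TopologicalSpace Opposite AlgebraicGeometry

universe u

namespace Pool.Agent.H17.KE

variable {X : Scheme.{u}}

/-- The ring homomorphism from the local ring at `z` to a field over the local ring at a
generization `w` of `z`. -/
noncomputable def locHom {w z : X} (h : w ⤳ z) {L : Type u} [Field L]
    (ρ : X.presheaf.stalk w →+* L) : X.presheaf.stalk z →+* L :=
  ρ.comp (X.presheaf.stalkSpecializes h).hom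

lemma locHom_germ {w z : X} (h : w ⤳ z) {L : Type u} [Field L]
    (ρ : X.presheaf.stalk w →+* L) (V : X.Opens) (hz : z ∈ V) (s : Γ(X, V)) :
    locHom h ρ (X.presheaf.germ V z hz s) =
      ρ (X.presheaf.germ V w (h.mem_open V.isOpen hz) s) := by
  unfold locHom
  rw [RingHom.comp_apply]
  congr 1
  have := TopCat.Presheaf.germ_stalkSpecializes X.presheaf hz h
  exact congrArg (fun f => f.hom s) this

theorem isClosed_bad (w : X) {L : Type u} [Field L] (ρ : X.presheaf.stalk w →+* L) (f : Lˣ) :
    IsClosed {z : X | ∃ h : w ⤳ z, ¬ ∃ u : (X.presheaf.stalk z)ˣ, locHom h ρ u = f} := by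
  rw [← isOpen_compl_iff, isOpen_iff_forall_mem_open]
  intro z hz
  by_cases h : w ⤳ z
  · have hu : ∃ u : (X.presheaf.stalk z)ˣ, locHom h ρ u = f := by
      by_contra hne
      exact hz ⟨h, hne⟩
    obtain ⟨u, hu⟩ := hu
    obtain ⟨V, hzV, s, hs⟩ := X.presheaf.exists_germ_eq (u : X.presheaf.stalk z)
    refine ⟨X.basicOpen s, ?_, (X.basicOpen s).isOpen, ?_⟩
    · rintro y hy ⟨h', hne⟩
      have hyV : y ∈ V := X.basicOpen_le s hy
      have hun : IsUnit (X.presheaf.germ V y hyV s) := (X.mem_basicOpen s y hyV).mp hy
      apply hne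
      refine ⟨hun.unit, ?_⟩
      rw [IsUnit.unit_spec, locHom_germ, ← hu, ← hs, locHom_germ]
    · show z ∈ X.basicOpen s
      rw [X.mem_basicOpen s z hzV, hs]
      exact u.isUnit
  · refine ⟨(closure {w})ᶜ, ?_, isClosed_closure.isOpen_compl, ?_⟩
    · rintro y hy ⟨h', -⟩
      exact hy (specializes_iff_mem_closure.mp h')
    · intro hc
      exact h (specializes_iff_mem_closure.mpr hc)

/-- A generization different from the point has smaller coheight. -/
lemma coheight_lt_of_specializes {w z : X} (h : w ⤳ z) (hne : w ≠ z)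
    (hfin : Order.coheight z < ⊤) : Order.coheight w < Order.coheight z := by
  have hle : z ≤ w := Scheme.le_iff_specializes.mpr h
  have hlt : z < w := by
    refine lt_of_le_not_ge hle fun h' => hne ?_
    exact (h.antisymm (Scheme.le_iff_specializes.mp h')).eq
  exact Order.coheight_strictAnti hlt (lt_of_le_of_lt (Order.coheight_anti hle) hfin)

end Pool.Agent.H17.KE
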