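import Pool.Agent.H17.KE.Gersten

/-! The sheaves `C0`, `C1`, `C2` of the Gersten complex of `K^M_2` and their differentials. -/

open CategoryTheory TopologicalSpace Opposite AlgebraicGeometry

universe u

namespace Pool.Agent.H17.KE

/-- Families supported in `P` with locally finite support. -/
abbrev finFam (X : TopCat.{u}) (M : X → Type u) [∀ x, AddCommGroup (M x)] (P : Set X) :
    LocFam X where
  M := M
  S U :=
    { carrier := {s | (∀ w : U, w.1 ∉ P → s w = 0) ∧
        ∀ x : U, ∃ V : Opens X, x.1 ∈ V ∧ {w : U | w.1 ∈ V ∧ s w ≠ 0}.Finite}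
      zero_mem' := ⟨fun _ _ => rfl, fun _ => ⟨⊤, trivial, by simp⟩⟩
      add_mem' := by
        rintro s t ⟨hs1, hs2⟩ ⟨ht1, ht2⟩
        refine ⟨fun w hw => ?_, fun x => ?_⟩
        · rw [Pi.add_apply, hs1 w hw, ht1 w hw, add_zero]
        · obtain ⟨V, hV, hf⟩ := hs2 x
          obtain ⟨V', hV', hf'⟩ := ht2 x
          refine ⟨V ⊓ V', ⟨hV, hV'⟩, (hf.union hf').subset ?_⟩
          rintro w ⟨⟨h1, h2⟩, h3⟩
          by_cases h4 : s w = 0
          · by_cases h5 : t w = 0
            · exact absurd (by rw [Pi.add_apply, h4, h5, add_zero]) h3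
            · exact Or.inr ⟨h2, h5⟩
          · exact Or.inl ⟨h1, h4⟩
      neg_mem' := by
        rintro s ⟨hs1, hs2⟩
        refine ⟨fun w hw => ?_, fun x => ?_⟩
        · rw [Pi.neg_apply, hs1 w hw, neg_zero]
        · obtain ⟨V, hV, hf⟩ := hs2 x
          refine ⟨V, hV, hf.subset ?_⟩
          rintro w ⟨h1, h2⟩
          exact ⟨h1, fun h => h2 (by rw [Pi.neg_apply, h, neg_zero])⟩ }
  res {U V} h s hs := by
    refine ⟨fun w hw => hs.1 ⟨w.1, h w.2⟩ hw, fun x => ?_⟩
    obtain ⟨W, hW, hf⟩ := hs.2 ⟨x.1, h x.2⟩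
    refine ⟨W, hW, ?_⟩
    refine Set.Finite.of_injOn (f := fun w : U => (⟨w.1, h w.2⟩ : V)) ?_ ?_ hf
    · rintro w ⟨h1, h2⟩
      exact ⟨h1, h2⟩
    · intro a _ b _ hab
      exact Subtype.ext (congrArg (fun t : V => t.1) hab)
  loc U s hs := by
    refine ⟨fun w hw => ?_, fun x => ?_⟩
    · obtain ⟨V, hV, h, hm⟩ := hs w
      exact hm.1 ⟨w.1, hV⟩ hw
    · obtain ⟨V, hV, h, hm⟩ := hs x
      obtain ⟨W, hW, hf⟩ := hm.2 ⟨x.1, hV⟩
      refine ⟨V ⊓ W, ⟨hV, hW⟩, (hf.image (fun w : V => (⟨w.1, h w.2⟩ : U))).subset ?_⟩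
      rintro w ⟨⟨h1, h2⟩, h3⟩
      exact ⟨⟨w.1, h1⟩, ⟨h2, h3⟩, rfl⟩

/-- Locally constant families with values in a fixed group. -/
abbrev constFam (X : TopCat.{u}) (C : Type u) [AddCommGroup C] : LocFam X where
  M _ := C
  S U :=
    { carrier := {s | ∀ x : U, ∃ V : Opens X, x.1 ∈ V ∧ ∃ c : C, ∀ y : U, y.1 ∈ V → s y = c}
      zero_mem' := fun _ => ⟨⊤, trivial, 0, fun _ _ => rfl⟩
      add_mem' := by
        intro s t hs ht x
        obtain ⟨V, hV, c, hc⟩ := hs x
        obtain ⟨V', hV', c', hc'⟩ := ht x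
        exact ⟨V ⊓ V', ⟨hV, hV'⟩, c + c', fun y hy => by
          rw [Pi.add_apply, hc y hy.1, hc' y hy.2]⟩
      neg_mem' := by
        intro s hs x
        obtain ⟨V, hV, c, hc⟩ := hs x
        exact ⟨V, hV, -c, fun y hy => by rw [Pi.neg_apply, hc y hy]⟩ }
  res {U V} h s hs := by
    intro x
    obtain ⟨W, hW, c, hc⟩ := hs ⟨x.1, h x.2⟩
    exact ⟨W, hW, c, fun y hy => hc ⟨y.1, h y.2⟩ hy⟩
  loc U s hs := by
    intro x
    obtain ⟨V, hV, h, hm⟩ := hs x
    obtain ⟨W, hW, c, hc⟩ := hm ⟨x.1, hV⟩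
    exact ⟨V ⊓ W, ⟨hV, hW⟩, c, fun y hy => hc ⟨y.1, hy.1⟩ hy.2⟩

variable (X : Scheme.{u})

/-- The points of codimension `n`. -/
def codimPts (n : ℕ) : Set X := {x | Order.coheight x = n}

/-- `C1`: locally finite families in `κ(w)ˣ`, `w` of codimension one. -/
noncomputable abbrev fam1 : LocFam X.toTopCat :=
  finFam X.toTopCat (fun w : X => Additive (X.residueField w)ˣ) (codimPts X 1)

/-- `C2`: locally finite families of integers, indexed by the points of codimension two. -/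
abbrev fam2 : LocFam X.toTopCat :=
  finFam X.toTopCat (fun _ : X => ULift.{u} ℤ) (codimPts X 2)

section

variable [IsIntegral X]

/-- `C0`: locally constant families in `K_2(k(X))`. -/
noncomputable abbrev fam0 : LocFam X.toTopCat := constFam X.toTopCat (K2 X.functionField)

variable [IsLocallyNoetherian X]

open Classical in
/-- The first differential on families. -/
noncomputable def d0Fam (U : X.Opens) : (fam0 X).S U →+ (fam1 X).S U where
  toFun s := ⟨fun w => if w.1 ∈ codimPts X 1 then tameAt X w.1 (s.1 w) else 0, by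
    refine ⟨fun w hw => if_neg hw, fun x => ?_⟩
    obtain ⟨V, hV, c, hc⟩ := s.2 x
    obtain ⟨V', hV', hf⟩ := tame_locally_finite X x.1 c
    refine ⟨V ⊓ V', ⟨hV, hV'⟩, ?_⟩
    refine Set.Finite.of_injOn (f := fun w : U => w.1) ?_ (fun a _ b _ hab => Subtype.ext hab) hf
    rintro w ⟨⟨h1, h2⟩, h3⟩
    by_cases hw : w.1 ∈ codimPts X 1
    · refine ⟨h2, hw, ?_⟩
      rw [← hc w h1]
      simpa only [if_pos hw] using h3
    · exact absurd (if_neg hw) h3⟩
  map_zero' := by
    apply Subtype.ext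
    funext w
    show (if w.1 ∈ codimPts X 1 then tameAt X w.1 (0 : K2 X.functionField) else 0) = 0
    rw [map_zero, ite_self]
  map_add' s t := by
    apply Subtype.ext
    funext w
    show (if w.1 ∈ codimPts X 1 then tameAt X w.1 ((s.1 w : K2 X.functionField) + t.1 w) else 0) =
      (if w.1 ∈ codimPts X 1 then tameAt X w.1 (s.1 w) else 0) +
      (if w.1 ∈ codimPts X 1 then tameAt X w.1 (t.1 w) else 0)
    rw [map_add]
    split_ifs
    · rfl
    · rw [add_zero]

/-- The first differential `C0 ⟶ C1`. -/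
noncomputable def d0 : (fam0 X).sheaf ⟶ (fam1 X).sheaf :=
  LocFam.homOf (d0Fam X) (fun _ _ => rfl)

end

section

variable {X} [IsLocallyNoetherian X]

open Classical in
/-- The contribution of the point `w` to the divisor of a family. -/
noncomputable def divTerm {U : X.Opens} (s : ∀ w : U, Additive (X.residueField w.1)ˣ)
    (z : U) (w : X) : ℤ :=
  if h : w ⤳ z.1 then ordAt h (s ⟨w, h.mem_open U.isOpen z.2⟩) else 0

omit [IsLocallyNoetherian X] in
lemma divTerm_finite {U : X.Opens} (s : (fam1 X).S U) (z : U) :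
    (Function.support (divTerm s.1 z)).Finite := by
  obtain ⟨V, hV, hf⟩ := s.2.2 z
  refine (hf.image (fun w : U => w.1)).subset ?_
  intro w hw
  rw [Function.mem_support, divTerm] at hw
  split_ifs at hw with h
  · refine ⟨⟨w, h.mem_open U.isOpen z.2⟩, ⟨h.mem_open V.isOpen hV, fun h0 => hw ?_⟩, rfl⟩
    rw [h0]
    exact map_zero _
  · exact absurd rfl hw

lemma div_locally_finite {U : X.Opens} (s : (fam1 X).S U) (x : U) :
    ∃ V : X.Opens, x.1 ∈ V ∧ {z : U | z.1 ∈ V ∧
      (z.1 ∈ codimPts X 2 ∧ ∑ᶠ w, divTerm s.1 z w ≠ 0)}.Finite := by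
  classical
  obtain ⟨V, hV, hf⟩ := s.2.2 x
  obtain ⟨V', hV', hf'⟩ := finite_minimal X x.1
  refine ⟨V ⊓ V', ⟨hV, hV'⟩, ?_⟩
  have hbig : (⋃ w ∈ {w : U | w.1 ∈ V ∧ s.1 w ≠ 0}, {z : X | z ∈ V' ∧
      z ∈ {z : X | ∃ h : w.1 ⤳ z, ¬ ∃ u : (X.presheaf.stalk z)ˣ,
        locHom h (X.residue w.1).hom u = (Additive.toMul (s.1 w) : (X.residueField w.1)ˣ)} ∧
      ∀ z' ∈ {z : X | ∃ h : w.1 ⤳ z, ¬ ∃ u : (X.presheaf.stalk z)ˣ,
        locHom h (X.residue w.1).hom u = (Additive.toMul (s.1 w) : (X.residueField w.1)ˣ)},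
        z' ⤳ z → z' = z}).Finite := by
    apply hf.biUnion
    intro w _
    exact hf' _ (isClosed_bad _ _ _)
  refine Set.Finite.of_injOn (f := fun z : U => z.1) ?_ (fun a _ b _ hab => Subtype.ext hab) hbig
  rintro z ⟨⟨hz1, hz2⟩, hz3, hz4⟩
  obtain ⟨w, hw⟩ : ∃ w, divTerm s.1 z w ≠ 0 := by
    by_contra hn
    push Not at hn
    exact hz4 (by rw [finsum_congr hn, finsum_zero])
  unfold divTerm at hw
  split_ifs at hw with h
  · have hwU : w ∈ U := h.mem_open U.isOpen z.2
    have hs0 : s.1 ⟨w, hwU⟩ ≠ 0 := by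
      intro h0
      apply hw
      rw [h0]
      exact map_zero _
    have hw1 : w ∈ codimPts X 1 := by
      by_contra hh
      exact hs0 (s.2.1 ⟨w, hwU⟩ hh)
    have hbadz : z.1 ∈ {z : X | ∃ h : w ⤳ z, ¬ ∃ u : (X.presheaf.stalk z)ˣ,
        locHom h (X.residue w).hom u =
          (Additive.toMul (s.1 ⟨w, hwU⟩) : (X.residueField w)ˣ)} := by
      refine ⟨h, fun hu => hw ?_⟩
      exact ordAt_of_unit h (Additive.toMul (s.1 ⟨w, hwU⟩)) hu
    refine Set.mem_biUnion (x := (⟨w, hwU⟩ : U)) ⟨h.mem_open V.isOpen hz1, hs0⟩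
      ⟨hz2, hbadz, ?_⟩
    rintro z' ⟨hz'1, hz'2⟩ hz'z
    by_contra hne
    have h1 := coheight_lt_of_specializes hz'z hne (by
      have : Order.coheight z.1 = 2 := hz3
      rw [this]; exact ENat.natCast_lt_top 2)
    have h2 : Order.coheight z.1 = 2 := hz3
    rw [h2] at h1
    by_cases hwz : w = z'
    · subst hwz
      apply hz'2
      obtain ⟨a, ha⟩ := X.residue_surjective w
        ((Additive.toMul (s.1 ⟨w, hwU⟩) : (X.residueField w)ˣ) : X.residueField w)
      have hau : IsUnit a := by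
        by_contra hna
        have h3 : (X.residue w).hom a = 0 :=
          (IsLocalRing.residue_eq_zero_iff a).mpr ((IsLocalRing.mem_maximalIdeal a).mpr hna)
        exact (Additive.toMul (s.1 ⟨w, hwU⟩)).ne_zero (ha.symm.trans h3)
      refine ⟨hau.unit, ?_⟩
      unfold locHom
      rw [TopCat.Presheaf.stalkSpecializes_refl]
      exact ha
    · have h3 := coheight_lt_of_specializes hz'1 hwz (lt_trans h1 (ENat.natCast_lt_top 2))
      have h4 : Order.coheight w = 1 := hw1
      rw [h4] at h3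
      have h5 : (1 + 1 : ℕ∞) ≤ Order.coheight z' := Order.add_one_le_of_lt h3
      have h6 : (1 + 1 : ℕ∞) = 2 := by norm_num
      rw [h6] at h5
      exact absurd (lt_of_le_of_lt h5 h1) (lt_irrefl _)
  · exact absurd rfl hw

open Classical in
variable (X) in
/-- The second differential on families: the divisor. -/
noncomputable def d1Fam (U : X.Opens) : (fam1 X).S U →+ (fam2 X).S U where
  toFun s := ⟨fun z => if z.1 ∈ codimPts X 2 then ULift.up (∑ᶠ w, divTerm s.1 z w) else 0, by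
    refine ⟨fun z hz => if_neg hz, fun x => ?_⟩
    obtain ⟨V, hV, hf⟩ := div_locally_finite s x
    refine ⟨V, hV, hf.subset ?_⟩
    rintro z ⟨h1, h2⟩
    by_cases hz : z.1 ∈ codimPts X 2
    · refine ⟨h1, hz, fun h0 => h2 ?_⟩
      show (if z.1 ∈ codimPts X 2 then ULift.up (∑ᶠ w, divTerm s.1 z w) else 0) = 0
      rw [if_pos hz, h0]
      rfl
    · exact absurd (if_neg hz) h2⟩
  map_zero' := by
    apply Subtype.ext
    funext z
    show (if z.1 ∈ codimPts X 2 then ULift.up (∑ᶠ w, divTerm (0 : (fam1 X).S U).1 z w) else 0) = 0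
    have : ∀ w, divTerm (0 : (fam1 X).S U).1 z w = 0 := by
      intro w
      unfold divTerm
      split_ifs
      · exact map_zero _
      · rfl
    rw [finsum_congr this, finsum_zero]
    split_ifs <;> rfl
  map_add' s t := by
    apply Subtype.ext
    funext z
    show (if z.1 ∈ codimPts X 2 then ULift.up (∑ᶠ w, divTerm (s + t).1 z w) else 0) =
      (if z.1 ∈ codimPts X 2 then ULift.up (∑ᶠ w, divTerm s.1 z w) else 0) +
      (if z.1 ∈ codimPts X 2 then ULift.up (∑ᶠ w, divTerm t.1 z w) else 0)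
    have : ∀ w, divTerm (s + t).1 z w = divTerm s.1 z w + divTerm t.1 z w := by
      intro w
      unfold divTerm
      split_ifs
      · exact map_add _ _ _
      · rw [add_zero]
    rw [finsum_congr this, finsum_add_distrib (divTerm_finite s z) (divTerm_finite t z)]
    split_ifs
    · rfl
    · rw [add_zero]

variable (X) in
/-- The second differential `C1 ⟶ C2`. -/
noncomputable def d1 : (fam1 X).sheaf ⟶ (fam2 X).sheaf :=
  LocFam.homOf (d1Fam X) (fun _ _ => rfl)

end

end Pool.Agent.H17.KE
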