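import Pool.Agent.H17.KE.Tame

/-! Local finiteness of minimal points of closed subsets of locally noetherian schemes. -/

open CategoryTheory TopologicalSpace Opposite AlgebraicGeometry

universe u

namespace Pool.Agent.H17.KE

/-- The minimal points (for generization) of a closed subset are locally finite in number. -/
theorem finite_minimal (X : Scheme.{u}) [IsLocallyNoetherian X] (x : X) :
    ∃ V : X.Opens, x ∈ V ∧ ∀ Z : Set X, IsClosed Z →
      {z : X | z ∈ V ∧ z ∈ Z ∧ ∀ z' ∈ Z, z' ⤳ z → z' = z}.Finite := by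
  obtain ⟨V, hV, hxV, -⟩ := X.isBasis_affineOpens.exists_subset_of_mem_open
    (show x ∈ (Set.univ : Set X) from trivial) isOpen_univ
  obtain ⟨V, hV, rfl⟩ := hV
  refine ⟨V, hxV, fun Z hZ => ?_⟩
  have hN : NoetherianSpace (V : Set X) := by
    have h1 : IsNoetherianRing Γ(X, V) := IsLocallyNoetherian.component_noetherian ⟨V, hV⟩
    exact noetherianSpace_of_isAffineOpen V hV
  obtain ⟨S, hSf, hSc, hSi, hSU⟩ := NoetherianSpace.exists_finite_set_isClosed_irreducible
    (α := (V : Set X)) (hZ.preimage (continuous_subtype_val (p := fun y => y ∈ (V : Set X))))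
  have hq : QuasiSober (V : Set X) := V.isOpen.isOpenEmbedding_subtypeVal.quasiSober
  classical
  let g : Set (V : Set X) → X :=
    fun T => if h : IsIrreducible T then ((h.genericPoint : (V : Set X)) : X) else x
  refine (hSf.image g).subset ?_
  rintro z ⟨hzV, hzZ, hmin⟩
  have hz : (⟨z, hzV⟩ : (V : Set X)) ∈ ⋃₀ S := by
    rw [← hSU]; exact hzZ
  obtain ⟨T, hT, hzT⟩ := hz
  refine ⟨T, hT, ?_⟩
  have hirr := hSi T hT
  have hg : g T = ((hirr.genericPoint : (V : Set X)) : X) := dif_pos hirr
  rw [hg]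
  have hcl : IsGenericPoint hirr.genericPoint (closure T) := hirr.isGenericPoint_genericPoint_closure
  rw [(hSc T hT).closure_eq] at hcl
  apply hmin
  · have : hirr.genericPoint ∈ ⋃₀ S := ⟨T, hT, hcl.mem⟩
    rw [← hSU] at this
    exact this
  · have h3 : hirr.genericPoint ⤳ (⟨z, hzV⟩ : (V : Set X)) := hcl.specializes hzT
    exact h3.map (continuous_subtype_val)

end Pool.Agent.H17.KE
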