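import Mathlib

/-! Sheaves of abelian groups given by families of elements which satisfy a local condition. -/

open CategoryTheory TopologicalSpace Opposite

universe u

namespace Pool.Agent.H17.KE

/-- A local condition on families `(s x)` with `s x` in an abelian group `M x`. -/
structure LocFam (X : TopCat.{u}) where
  /-- the groups -/
  M : X → Type u
  [grp : ∀ x, AddCommGroup (M x)]
  /-- the families which are allowed over an open set -/
  S : ∀ U : Opens X, AddSubgroup (∀ x : U, M x)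
  res : ∀ {U V : Opens X} (h : U ≤ V) (s : ∀ x : V, M x), s ∈ S V →
    (fun x : U => s ⟨x.1, h x.2⟩) ∈ S U
  loc : ∀ (U : Opens X) (s : ∀ x : U, M x), (∀ x : U, ∃ V : Opens X, x.1 ∈ V ∧ ∃ h : V ≤ U,
    (fun y : V => s ⟨y.1, h y.2⟩) ∈ S V) → s ∈ S U

attribute [instance] LocFam.grp

namespace LocFam

variable {X : TopCat.{u}} (L : LocFam X)

/-- Restriction of families. -/
def resHom {U V : Opens X} (h : U ≤ V) : L.S V →+ L.S U where
  toFun s := ⟨fun x => s.1 ⟨x.1, h x.2⟩, L.res h s.1 s.2⟩
  map_zero' := rfl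
  map_add' _ _ := rfl

/-- The presheaf of a local condition. -/
def presheaf : (Opens X)ᵒᵖ ⥤ AddCommGrpCat.{u} where
  obj U := AddCommGrpCat.of (L.S U.unop)
  map f := AddCommGrpCat.ofHom (L.resHom f.unop.le)
  map_id _ := rfl
  map_comp _ _ := rfl

lemma presheaf_map_apply {U V : Opens X} (h : U ≤ V) (s : L.S V) (x : U) :
    (L.presheaf.map (homOfLE h).op s).1 x = s.1 ⟨x.1, h x.2⟩ := rfl

theorem isSheaf : TopCat.Presheaf.IsSheaf L.presheaf := by
  rw [TopCat.Presheaf.isSheaf_iff_isSheafUniqueGluing]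
  intro ι U sf hc
  -- values of the gluing
  have hx : ∀ x : (iSup U : Opens X), ∃ i, x.1 ∈ U i := fun x => Opens.mem_iSup.mp x.2
  choose i hi using hx
  have key : ∀ (x : X) (a b : ι) (ha : x ∈ U a) (hb : x ∈ U b),
      (sf a).1 ⟨x, ha⟩ = (sf b).1 ⟨x, hb⟩ := by
    intro x a b ha hb
    have := hc a b
    have h2 := congrArg (fun s : L.S (U a ⊓ U b) => s.1 ⟨x, ⟨ha, hb⟩⟩) this
    exact h2
  let s : ∀ x : (iSup U : Opens X), L.M x := fun x => (sf (i x)).1 ⟨x.1, hi x⟩
  have hs : s ∈ L.S (iSup U) := by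
    apply L.loc
    intro x
    refine ⟨U (i x), hi x, le_iSup U (i x), ?_⟩
    have : (fun y : U (i x) => s ⟨y.1, le_iSup U (i x) y.2⟩) = (sf (i x)).1 := by
      funext y
      exact key _ _ _ _ _
    rw [this]
    exact (sf (i x)).2
  refine ⟨⟨s, hs⟩, ?_, ?_⟩
  · intro j
    apply Subtype.ext
    funext y
    exact key _ _ _ _ _
  · intro t ht
    apply Subtype.ext
    funext x
    have := ht (i x)
    have h2 := congrArg (fun s : L.S (U (i x)) => s.1 ⟨x.1, hi x⟩) this
    exact h2

/-- The sheaf of a local condition. -/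
def sheaf : Sheaf (Opens.grothendieckTopology X) AddCommGrpCat.{u} := ⟨L.presheaf, L.isSheaf⟩

variable {L} {L' : LocFam X}

/-- A morphism of the associated sheaves, given on families. -/
def homOf (f : ∀ U : Opens X, L.S U →+ L'.S U)
    (hf : ∀ {U V : Opens X} (h : U ≤ V) (s : L.S V), f U (L.resHom h s) = L'.resHom h (f V s)) :
    L.sheaf ⟶ L'.sheaf :=
  ⟨{ app := fun U => AddCommGrpCat.ofHom (f U.unop)
     naturality := fun {U V} g => by
       ext s
       exact hf g.unop.le s }⟩

end LocFam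

end Pool.Agent.H17.KE
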