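import Pool.Agent.H17.KE.Bad
import Pool.Agent.H17.KE.LocFam

/-! The Gersten complex of `K^M_2` on an integral locally noetherian scheme. -/

open CategoryTheory TopologicalSpace Opposite AlgebraicGeometry

universe u

namespace Pool.Agent.H17.KE

/-- The order `κˣ → ℤ` attached to a one-dimensional noetherian subring `S` with fraction field
`κ` (zero if `S` is not such a subring). -/
noncomputable def ordSub {κ : Type u} [Field κ] (S : Subring κ) : Additive κˣ →+ ℤ := by
  classical
  exact if h : IsNoetherianRing S ∧ Ring.KrullDimLE 1 S ∧ IsFractionRing S κ then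
    have := h.1
    have := h.2.1
    have := h.2.2
    ordZ S κ else 0

lemma ordSub_of_unit {κ : Type u} [Field κ] (S : Subring κ) (f : κˣ)
    (h : ∃ u : Sˣ, ((u : S) : κ) = f) : ordSub S (Additive.ofMul f) = 0 := by
  classical
  unfold ordSub
  split_ifs with hS
  · haveI := hS.1
    have := hS.2.1
    have := hS.2.2
    obtain ⟨u, hu⟩ := h
    have h1 := ordZ_spec S κ f
    have h2 : Ring.ordFrac S (algebraMap S κ (u : S)) = 1 := Ring.ordFrac_of_isUnit u.isUnit
    have h3 : algebraMap S κ (u : S) = f := hu
    rw [h3, h1] at h2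
    exact WithZero.exp_injective (h2.trans WithZero.exp_zero.symm)
  · rfl

variable {X : Scheme.{u}}

/-- The image of the local ring `O_{X,z}` in the residue field of a generization `w` of `z`,
i.e. the local ring at `z` of the closure of `w`. -/
noncomputable def resSub {w z : X} (h : w ⤳ z) : Subring (X.residueField w) :=
  (locHom h (X.residue w).hom).range

/-- The order along `z` of rational functions on the closure of `w`. -/
noncomputable def ordAt {w z : X} (h : w ⤳ z) : Additive (X.residueField w)ˣ →+ ℤ :=
  ordSub (resSub h)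

lemma ordAt_of_unit {w z : X} (h : w ⤳ z) (f : (X.residueField w)ˣ)
    (hf : ∃ u : (X.presheaf.stalk z)ˣ, locHom h (X.residue w).hom u = f) :
    ordAt h (Additive.ofMul f) = 0 := by
  apply ordSub_of_unit
  obtain ⟨u, hu⟩ := hf
  let g : (X.presheaf.stalk z) →+* (resSub h) := (locHom h (X.residue w).hom).rangeRestrict
  refine ⟨Units.map (g : _ →* _) u, ?_⟩
  rw [← hu]
  rfl

section

variable (X) [IsIntegral X]

omit [IsIntegral X] in
/-- The identity of the residue field. -/
noncomputable def resId (w : X) :
    IsLocalRing.ResidueField (X.presheaf.stalk w) →+* X.residueField w :=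
  RingHom.id (X.residueField w)

/-- The tame symbol at a point whose local ring is a discrete valuation ring (zero otherwise). -/
noncomputable def tameAt (w : X) : K2 X.functionField →+ Additive (X.residueField w)ˣ := by
  classical
  exact if h : IsDiscreteValuationRing (X.presheaf.stalk w) then
    (MonoidHom.toAdditive (Units.map (resId X w : _ →* _))).comp
      (tame (X.presheaf.stalk w) X.functionField) else 0

lemma tameAt_of_dvr (w : X) [h : IsDiscreteValuationRing (X.presheaf.stalk w)] :
    tameAt X w = (MonoidHom.toAdditive (Units.map (resId X w : _ →* _))).comp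
      (tame (X.presheaf.stalk w) X.functionField) := dif_pos h

lemma tameAt_of_not (w : X) (h : ¬ IsDiscreteValuationRing (X.presheaf.stalk w)) :
    tameAt X w = 0 := dif_neg h

lemma tameAt_sym_of_units (w : X) (f g : (X.functionField)ˣ)
    (hf : ∃ u : (X.presheaf.stalk w)ˣ, algebraMap (X.presheaf.stalk w) X.functionField u = f)
    (hg : ∃ u : (X.presheaf.stalk w)ˣ, algebraMap (X.presheaf.stalk w) X.functionField u = g) :
    tameAt X w (sym f g) = 0 := by
  by_cases h : IsDiscreteValuationRing (X.presheaf.stalk w)
  · obtain ⟨u, hu⟩ := hf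
    obtain ⟨v, hv⟩ := hg
    have hu' : Units.map (algebraMap (X.presheaf.stalk w) X.functionField : _ →* _) u = f :=
      Units.ext hu
    have hv' : Units.map (algebraMap (X.presheaf.stalk w) X.functionField : _ →* _) v = g :=
      Units.ext hv
    rw [tameAt_of_dvr, AddMonoidHom.comp_apply, ← hu', tame_unit_left, ← hv', vZ_algebraMap,
      zero_smul, map_zero]
  · rw [tameAt_of_not X w h, AddMonoidHom.zero_apply]

variable [IsLocallyNoetherian X]

/-- The tame symbols of an element of `K_2(k(X))` are locally finite in number. -/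
theorem tame_locally_finite (x : X) (a : K2 X.functionField) :
    ∃ V : X.Opens, x ∈ V ∧ {w : X | w ∈ V ∧ Order.coheight w = 1 ∧ tameAt X w a ≠ 0}.Finite := by
  obtain ⟨V, hxV, hV⟩ := finite_minimal X x
  refine ⟨V, hxV, ?_⟩
  induction a using K2.induction with
  | h0 => simp
  | hs f g =>
    let bad : (X.functionField)ˣ → Set X := fun f =>
      {z : X | ∃ h : genericPoint X ⤳ z, ¬ ∃ u : (X.presheaf.stalk z)ˣ,
        locHom h (RingHom.id X.functionField) u = f}
    have hbad : ∀ f, (bad f).Finite ∨ True := fun f => Or.inr trivial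
    have hcl : ∀ f, IsClosed (bad f) := fun f => isClosed_bad _ _ f
    have hsub : ∀ w : X, w ∈ V → Order.coheight w = 1 → ∀ f, w ∈ bad f →
        w ∈ {z : X | z ∈ V ∧ z ∈ bad f ∧ ∀ z' ∈ bad f, z' ⤳ z → z' = z} := by
      intro w hw hw1 f hwf
      refine ⟨hw, hwf, fun z' hz' hzw => ?_⟩
      by_contra hne
      have h1 := coheight_lt_of_specializes hzw hne (by rw [hw1]; exact ENat.natCast_lt_top 1)
      rw [hw1] at h1
      have h2 : Order.coheight z' = 0 := Order.lt_one_iff.mp h1
      rw [Order.coheight_eq_zero] at h2
      have hgp : genericPoint X ⤳ z' := genericPoint_specializes z'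
      have h3 : genericPoint X ≤ z' := h2 (Scheme.le_iff_specializes.mpr hgp)
      have h4 : z' = genericPoint X :=
        ((Scheme.le_iff_specializes.mp h3).antisymm hgp).eq
      subst h4
      obtain ⟨h5, h6⟩ := hz'
      apply h6
      refine ⟨f, ?_⟩
      unfold locHom
      rw [TopCat.Presheaf.stalkSpecializes_refl]
      rfl
    refine ((hV _ (hcl f)).union (hV _ (hcl g))).subset ?_
    rintro w ⟨hwV, hw1, hne⟩
    by_contra hn
    rw [Set.mem_union, not_or] at hn
    apply hne
    apply tameAt_sym_of_units
    · by_contra hh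
      exact hn.1 (hsub w hwV hw1 f ⟨genericPoint_specializes w, hh⟩)
    · by_contra hh
      exact hn.2 (hsub w hwV hw1 g ⟨genericPoint_specializes w, hh⟩)
  | hadd a b ha hb =>
    refine (ha.union hb).subset ?_
    rintro w ⟨hwV, hw1, hne⟩
    by_contra hn
    rw [Set.mem_union, not_or] at hn
    apply hne
    have h1 : tameAt X w a = 0 := by
      by_contra hh
      exact hn.1 ⟨hwV, hw1, hh⟩
    have h2 : tameAt X w b = 0 := by
      by_contra hh
      exact hn.2 ⟨hwV, hw1, hh⟩
    rw [map_add, h1, h2, add_zero]

end

end Pool.Agent.H17.KE
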