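import Mathlib

/-! Homological lemma: lifting a class along a two-step resolution. -/

open CategoryTheory Limits Abelian

universe w v u

namespace Pool.Agent.H17.KE

variable {C : Type u} [Category.{v} C] [Abelian C] [HasExt.{w} C]

omit [HasExt.{w} C] in
/-- Quotient of a short exact sequence by a subobject of the first term. -/
lemma shortExact_quot {Z1 C1 C2 D : C} (f : Z1 ⟶ C1) (g : C1 ⟶ C2) (w : f ≫ g = 0)
    (hS : (ShortComplex.mk f g w).ShortExact) (j : D ⟶ Z1)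
    (f' : cokernel j ⟶ cokernel (j ≫ f)) (g' : cokernel (j ≫ f) ⟶ C2)
    (hf' : cokernel.π j ≫ f' = f ≫ cokernel.π (j ≫ f))
    (hg' : cokernel.π (j ≫ f) ≫ g' = g) (w' : f' ≫ g' = 0) :
    (ShortComplex.mk f' g' w').ShortExact := by
  have hm : Mono f := hS.mono_f
  have he : Epi g := hS.epi_g
  refine ShortComplex.ShortExact.mk' ?_ ?_ ?_
  · -- exact
    rw [ShortComplex.exact_iff_exact_up_to_refinements]
    intro A x hx
    simp only at x hx
    obtain ⟨A', p, hp, y, hy⟩ := surjective_up_to_refinements_of_epi (cokernel.π (j ≫ f)) x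
    have h1 : y ≫ g = 0 := by
      rw [← hg', ← Category.assoc, ← hy, Category.assoc, hx, comp_zero]
    have hex := hS.exact
    rw [ShortComplex.exact_iff_exact_up_to_refinements] at hex
    obtain ⟨A'', p', hp', z, hz⟩ := hex y h1
    simp only at z hz
    refine ⟨A'', p' ≫ p, inferInstance, z ≫ cokernel.π j, ?_⟩
    simp only [Category.assoc]
    rw [hf', hy, ← Category.assoc, hz, Category.assoc]
  · -- mono
    show Mono f'
    rw [Preadditive.mono_iff_cancel_zero]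
    intro A x hx
    obtain ⟨A', p, hp, y, hy⟩ := surjective_up_to_refinements_of_epi (cokernel.π j) x
    have h1 : (y ≫ f) ≫ cokernel.π (j ≫ f) = 0 := by
      rw [Category.assoc, ← hf', ← Category.assoc, ← hy, Category.assoc, hx, comp_zero]
    have hex : (ShortComplex.mk (j ≫ f) (cokernel.π (j ≫ f)) (cokernel.condition _)).Exact :=
      ShortComplex.exact_cokernel _
    rw [ShortComplex.exact_iff_exact_up_to_refinements] at hex
    obtain ⟨A'', p', hp', z, hz⟩ := hex (y ≫ f) h1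
    simp only at z hz
    have h2 : p' ≫ y = z ≫ j := by
      rw [← cancel_mono f, Category.assoc, hz, Category.assoc]
    have h3 : (p' ≫ p) ≫ x = 0 := by
      rw [Category.assoc, hy, ← Category.assoc, h2, Category.assoc, cokernel.condition, comp_zero]
    exact (cancel_epi (p' ≫ p)).mp (by rw [h3, comp_zero])
  · show Epi g'
    have : Epi (cokernel.π (j ≫ f) ≫ g') := by rw [hg']; exact he
    exact epi_of_epi (cokernel.π (j ≫ f)) g'

/-- LEMMA H. -/
theorem lift_of_vanish {T K C0 Z1 C1 C2 F D G0 : C}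
    (k : K ⟶ C0) (d0 : C0 ⟶ Z1) (w2 : k ≫ d0 = 0) (h2 : (ShortComplex.mk k d0 w2).ShortExact)
    (z : Z1 ⟶ C1) (d1 : C1 ⟶ C2) (w1 : z ≫ d1 = 0) (h1 : (ShortComplex.mk z d1 w1).ShortExact)
    (i : D ⟶ C0) (q : C0 ⟶ G0) (w0 : i ≫ q = 0) (h0 : (ShortComplex.mk i q w0).ShortExact)
    (ρ : K ⟶ F) [Epi ρ] (φ : F ⟶ G0) (hφ : ρ ≫ φ = k ≫ q)
    (hG : Subsingleton (Ext T G0 1)) (c : T ⟶ C2)
    (hc : (((Ext.mk₀ c).comp h1.extClass (zero_add 1)).comp h2.extClass rfl).comp
      (Ext.mk₀ ρ) (add_zero 2) = 0) :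
    ∃ g : T ⟶ cokernel ((i ≫ d0) ≫ z),
      g ≫ cokernel.desc ((i ≫ d0) ≫ z) d1 (by simp [w1]) = c := by
  have hd0 : Epi d0 := h2.epi_g
  have hq : Epi q := h0.epi_g
  -- the quotient `Q = Z1 / D`
  let j : D ⟶ Z1 := i ≫ d0
  -- the map `G0 ⟶ Q`
  obtain ⟨s, hs⟩ : ∃ s : G0 ⟶ cokernel j, q ≫ s = d0 ≫ cokernel.π j := by
    have hc0 := h0.gIsCokernel
    have hz : i ≫ (d0 ≫ cokernel.π j) = 0 := by
      rw [← Category.assoc]; exact cokernel.condition j
    exact ⟨hc0.desc (CokernelCofork.ofπ (d0 ≫ cokernel.π j) hz),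
      hc0.fac (CokernelCofork.ofπ (d0 ≫ cokernel.π j) hz) WalkingParallelPair.one⟩
  have hse : Epi s := by
    have : Epi (q ≫ s) := by rw [hs]; infer_instance
    exact epi_of_epi q s
  -- short exact sequence kernel s ⟶ G0 ⟶ Q
  let S2' : ShortComplex C := ShortComplex.mk (kernel.ι s) s (kernel.condition s)
  have hS2' : S2'.ShortExact := ShortComplex.ShortExact.mk' (ShortComplex.exact_kernel s)
    (by dsimp [S2']; infer_instance) (by dsimp [S2']; infer_instance)
  have hφs : φ ≫ s = 0 := by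
    rw [← cancel_epi ρ, ← Category.assoc, hφ, Category.assoc, hs, ← Category.assoc, w2]
    simp
  let φ' : F ⟶ kernel s := kernel.lift s φ hφs
  let m2 : ShortComplex.mk k d0 w2 ⟶ S2' :=
    { τ₁ := ρ ≫ φ'
      τ₂ := q
      τ₃ := cokernel.π j
      comm₁₂ := by simp [S2', φ', hφ]
      comm₂₃ := by simp [S2', hs] }
  -- pushout sequence
  let z' : cokernel j ⟶ cokernel (j ≫ z) := cokernel.desc j (z ≫ cokernel.π (j ≫ z))
    (by rw [← Category.assoc]; exact cokernel.condition _)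
  let d1' : cokernel (j ≫ z) ⟶ C2 := cokernel.desc (j ≫ z) d1 (by simp [w1])
  have hz' : cokernel.π j ≫ z' = z ≫ cokernel.π (j ≫ z) := by simp [z']
  have hd1' : cokernel.π (j ≫ z) ≫ d1' = d1 := by simp [d1']
  have w1' : z' ≫ d1' = 0 := by
    rw [← cancel_epi (cokernel.π j), ← Category.assoc, hz', Category.assoc, hd1', w1]
    simp
  have hS1' := shortExact_quot z d1 w1 h1 j z' d1' hz' hd1' w1'
  let m1 : ShortComplex.mk z d1 w1 ⟶ ShortComplex.mk z' d1' w1' :=
    { τ₁ := cokernel.π j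
      τ₂ := cokernel.π (j ≫ z)
      τ₃ := 𝟙 C2
      comm₁₂ := by simpa using hz'
      comm₂₃ := by simpa using hd1' }
  have n2 := ShortComplex.ShortExact.extClass_naturality h2 hS2' m2
  have n1 := ShortComplex.ShortExact.extClass_naturality h1 hS1' m1
  -- the class of c in Ext^1(T, Q)
  let x1 : Ext T Z1 1 := (Ext.mk₀ c).comp h1.extClass (zero_add 1)
  let x1' : Ext T (cokernel j) 1 := x1.comp (Ext.mk₀ (cokernel.π j)) (add_zero 1)
  have e1 : x1'.comp hS2'.extClass (show 1 + 1 = 2 from rfl) = 0 := by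
    have e2 : x1'.comp hS2'.extClass (show 1 + 1 = 2 from rfl) =
        x1.comp ((Ext.mk₀ (cokernel.π j)).comp hS2'.extClass (zero_add 1)) rfl := by
      simp only [x1']
      exact Ext.comp_assoc (a₁₂ := 1) (a₂₃ := 1) _ _ _ (by lia) (by lia) (by lia)
    rw [e2]
    have n2' : (Ext.mk₀ (cokernel.π j)).comp hS2'.extClass (zero_add 1) =
        h2.extClass.comp (Ext.mk₀ (ρ ≫ φ')) (add_zero 1) := n2.symm
    rw [n2', ← Ext.mk₀_comp_mk₀]
    have e3 : x1.comp (h2.extClass.comp ((Ext.mk₀ ρ).comp (Ext.mk₀ φ') (zero_add 0)) (add_zero 1))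
        (show 1 + 1 = 2 from rfl) =
        ((x1.comp h2.extClass (show 1 + 1 = 2 from rfl)).comp (Ext.mk₀ ρ) (add_zero 2)).comp
          (Ext.mk₀ φ') (add_zero 2) := by
      rw [Ext.comp_assoc (a₁₂ := 2) (a₂₃ := 0) _ _ _ (by lia) (by lia) (by lia)]
      rw [Ext.comp_assoc (a₁₂ := 2) (a₂₃ := 1) _ _ _ (by lia) (by lia) (by lia)]
    rw [e3]
    have e4 : (x1.comp h2.extClass (show 1 + 1 = 2 from rfl)).comp (Ext.mk₀ ρ) (add_zero 2) = 0 :=
      hc
    rw [e4, Ext.zero_comp]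
  obtain ⟨x2, hx2⟩ := Ext.covariant_sequence_exact₃ T hS2' x1' rfl e1
  have hx2' : x2 = 0 := hG.elim _ _
  have e5 : x1' = 0 := by
    rw [← hx2, hx2', Ext.zero_comp]
  -- now lift
  have e6 : (Ext.mk₀ c).comp hS1'.extClass (zero_add 1) = 0 := by
    have n1' : h1.extClass.comp (Ext.mk₀ (cokernel.π j)) (add_zero 1) = hS1'.extClass := by
      have := n1
      simp only [m1] at this
      rw [this]
      simp
    rw [← n1']
    have : (Ext.mk₀ c).comp (h1.extClass.comp (Ext.mk₀ (cokernel.π j)) (add_zero 1))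
        (zero_add 1) = x1' := by
      simp only [x1', x1]
      exact (Ext.comp_assoc (a₁₂ := 1) (a₂₃ := 1) _ _ _ (by lia) (by lia) (by lia)).symm
    rw [this, e5]
  obtain ⟨g0, hg0⟩ := Ext.covariant_sequence_exact₃ T hS1' (Ext.mk₀ c) (zero_add 1) e6
  obtain ⟨g, rfl⟩ := (Ext.mk₀_bijective T (cokernel (j ≫ z))).2 g0
  refine ⟨g, ?_⟩
  apply (Ext.mk₀_bijective T C2).1
  rw [← Ext.mk₀_comp_mk₀]
  exact hg0

end Pool.Agent.H17.KE
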