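import Mathlib

/-! The second Milnor K-group of a commutative ring, as a functor. -/

open scoped TensorProduct
open CategoryTheory

universe u

namespace Pool.Agent.H17.KE

section

variable (R S T : Type u) [CommRing R] [CommRing S] [CommRing T]

/-- The subgroup of `Rˣ ⊗ Rˣ` generated by the Steinberg elements `a ⊗ b`, `a + b = 1`. -/
def steinberg : AddSubgroup (Additive Rˣ ⊗[ℤ] Additive Rˣ) :=
  AddSubgroup.closure {t | ∃ a b : Rˣ, (a : R) + (b : R) = 1 ∧
    t = Additive.ofMul a ⊗ₜ[ℤ] Additive.ofMul b}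

/-- `K^M_2(R) = Rˣ ⊗ Rˣ / (a ⊗ (1 - a) : a, 1 - a units)`. -/
def K2 : Type u := (Additive Rˣ ⊗[ℤ] Additive Rˣ) ⧸ steinberg R

noncomputable instance : AddCommGroup (K2 R) :=
  inferInstanceAs (AddCommGroup ((Additive Rˣ ⊗[ℤ] Additive Rˣ) ⧸ steinberg R))

variable {R S T}

/-- The projection `Rˣ ⊗ Rˣ → K^M_2(R)`. -/
noncomputable def K2.mk : (Additive Rˣ ⊗[ℤ] Additive Rˣ) →+ K2 R :=
  QuotientAddGroup.mk' (steinberg R)

lemma K2.mk_surjective : Function.Surjective (K2.mk (R := R)) :=
  QuotientAddGroup.mk'_surjective (steinberg R)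

lemma K2.mk_eq_zero (t : Additive Rˣ ⊗[ℤ] Additive Rˣ) : K2.mk t = 0 ↔ t ∈ steinberg R :=
  QuotientAddGroup.eq_zero_iff t

/-- The symbol `{a, b}`. -/
noncomputable def sym (a b : Rˣ) : K2 R :=
  K2.mk (Additive.ofMul a ⊗ₜ[ℤ] Additive.ofMul b)

lemma sym_mul_left (a b c : Rˣ) : sym (a * b) c = sym a c + sym b c := by
  exact (congrArg K2.mk (TensorProduct.add_tmul (R := ℤ) (Additive.ofMul a) (Additive.ofMul b)
    (Additive.ofMul c))).trans (map_add _ _ _)

lemma sym_mul_right (a b c : Rˣ) : sym a (b * c) = sym a b + sym a c := by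
  exact (congrArg K2.mk (TensorProduct.tmul_add (R := ℤ) (Additive.ofMul a) (Additive.ofMul b)
    (Additive.ofMul c))).trans (map_add _ _ _)

lemma sym_steinberg (a b : Rˣ) (h : (a : R) + b = 1) : sym a b = 0 := by
  exact (K2.mk_eq_zero _).mpr (AddSubgroup.subset_closure ⟨a, b, h, rfl⟩)

lemma sym_one_left (b : Rˣ) : sym 1 b = 0 := by
  have h := sym_mul_left (1 : Rˣ) 1 b
  rw [mul_one] at h
  exact (left_eq_add.mp h)

lemma sym_one_right (b : Rˣ) : sym b 1 = 0 := by
  have h := sym_mul_right b (1 : Rˣ) 1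
  rw [mul_one] at h
  exact (left_eq_add.mp h)

lemma sym_inv_left (a b : Rˣ) : sym a⁻¹ b = -sym a b := by
  rw [eq_neg_iff_add_eq_zero, ← sym_mul_left, inv_mul_cancel, sym_one_left]

lemma sym_inv_right (a b : Rˣ) : sym a b⁻¹ = -sym a b := by
  rw [eq_neg_iff_add_eq_zero, ← sym_mul_right, inv_mul_cancel, sym_one_right]

lemma sym_div_left (a b c : Rˣ) : sym (a / b) c = sym a c - sym b c := by
  rw [div_eq_mul_inv, sym_mul_left, sym_inv_left, sub_eq_add_neg]

lemma sym_div_right (a b c : Rˣ) : sym a (b / c) = sym a b - sym a c := by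
  rw [div_eq_mul_inv, sym_mul_right, sym_inv_right, sub_eq_add_neg]

lemma sym_pow_left (a b : Rˣ) (n : ℕ) : sym (a ^ n) b = n • sym a b := by
  induction n with
  | zero => simp [sym_one_left]
  | succ n ih => rw [pow_succ, sym_mul_left, ih, succ_nsmul]

lemma sym_pow_right (a b : Rˣ) (n : ℕ) : sym a (b ^ n) = n • sym a b := by
  induction n with
  | zero => simp [sym_one_right]
  | succ n ih => rw [pow_succ, sym_mul_right, ih, succ_nsmul]

/-- Every additive map out of `K^M_2(R)` is determined by its values on symbols. -/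
lemma K2.hom_ext {M : Type*} [AddCommGroup M] {f g : K2 R →+ M}
    (h : ∀ a b : Rˣ, f (sym a b) = g (sym a b)) : f = g := by
  apply QuotientAddGroup.addMonoidHom_ext
  apply AddMonoidHom.ext
  intro t
  induction t using TensorProduct.induction_on with
  | zero => simp
  | tmul x y => exact h (Additive.toMul x) (Additive.toMul y)
  | add x y hx hy => rw [map_add, map_add, hx, hy]

lemma K2.induction {P : K2 R → Prop} (h0 : P 0) (hs : ∀ a b : Rˣ, P (sym a b))
    (hadd : ∀ x y, P x → P y → P (x + y)) (x : K2 R) : P x := by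
  obtain ⟨t, rfl⟩ := K2.mk_surjective x
  induction t using TensorProduct.induction_on with
  | zero => rw [map_zero]; exact h0
  | tmul x y => exact hs (Additive.toMul x) (Additive.toMul y)
  | add x y hx hy => rw [map_add]; exact hadd _ _ hx hy

/-- Bimultiplicative maps which kill the Steinberg elements define maps on `K^M_2`. -/
noncomputable def K2.lift {M : Type*} [AddCommGroup M] (f : Rˣ → Rˣ → M)
    (hl : ∀ a b c, f (a * b) c = f a c + f b c) (hr : ∀ a b c, f a (b * c) = f a b + f a c)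
    (hs : ∀ a b : Rˣ, (a : R) + b = 1 → f a b = 0) : K2 R →+ M :=
  QuotientAddGroup.lift (steinberg R)
    (TensorProduct.liftAddHom
      (AddMonoidHom.mk' (fun a : Additive Rˣ => AddMonoidHom.mk' (fun b : Additive Rˣ =>
        f (Additive.toMul a) (Additive.toMul b)) (fun _ _ => hr _ _ _))
        (fun a b => by ext c; exact hl _ _ _))
      (fun n a b => by
        rw [map_zsmul, map_zsmul]; rfl))
    (by
      rw [steinberg, AddSubgroup.closure_le]
      rintro t ⟨a, b, h, rfl⟩
      exact hs a b h)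

lemma K2.lift_sym {M : Type*} [AddCommGroup M] (f : Rˣ → Rˣ → M)
    (hl : ∀ a b c, f (a * b) c = f a c + f b c) (hr : ∀ a b c, f a (b * c) = f a b + f a c)
    (hs : ∀ a b : Rˣ, (a : R) + b = 1 → f a b = 0) (a b : Rˣ) :
    K2.lift f hl hr hs (sym a b) = f a b := rfl

/-- Functoriality of `K^M_2`. -/
noncomputable def K2.map (f : R →+* S) : K2 R →+ K2 S :=
  K2.lift (fun a b => sym (Units.map (f : R →* S) a) (Units.map (f : R →* S) b))
    (fun a b c => by rw [map_mul, sym_mul_left]) (fun a b c => by rw [map_mul, sym_mul_right])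
    (fun a b h => sym_steinberg _ _ (by
      have := congrArg f h
      simpa using this))

lemma K2.map_sym (f : R →+* S) (a b : Rˣ) :
    K2.map f (sym a b) = sym (Units.map (f : R →* S) a) (Units.map (f : R →* S) b) := rfl

lemma K2.map_id : K2.map (RingHom.id R) = AddMonoidHom.id (K2 R) := by
  apply K2.hom_ext
  intro a b
  rfl

lemma K2.map_comp (f : R →+* S) (g : S →+* T) :
    K2.map (g.comp f) = (K2.map g).comp (K2.map f) := by
  apply K2.hom_ext
  intro a b
  rfl

/-- The functor `K^M_2` from commutative rings to abelian groups. -/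
noncomputable def K2Functor : CommRingCat.{u} ⥤ AddCommGrpCat.{u} where
  obj R := AddCommGrpCat.of (K2 R)
  map f := AddCommGrpCat.ofHom (K2.map f.hom)
  map_id R := by
    rw [CommRingCat.hom_id, K2.map_id]; rfl
  map_comp f g := by
    rw [CommRingCat.hom_comp, K2.map_comp]; rfl

end

section

/-- `M / q` for an abelian group `M` and a natural number `q`. -/
def ModQ (q : ℕ) (M : Type u) [AddCommGroup M] : Type u := M ⧸ (nsmulAddMonoidHom q : M →+ M).range

noncomputable instance (q : ℕ) (M : Type u) [AddCommGroup M] : AddCommGroup (ModQ q M) :=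
  inferInstanceAs (AddCommGroup (M ⧸ (nsmulAddMonoidHom q : M →+ M).range))

/-- The projection `M → M / q`. -/
def toModQ (q : ℕ) (M : Type u) [AddCommGroup M] : M →+ ModQ q M :=
  QuotientAddGroup.mk' (nsmulAddMonoidHom q : M →+ M).range

/-- Functoriality of `M ↦ M / q`. -/
def ModQ.map (q : ℕ) {M N : Type u} [AddCommGroup M] [AddCommGroup N] (f : M →+ N) :
    ModQ q M →+ ModQ q N :=
  QuotientAddGroup.map _ _ f (by
    rintro x ⟨y, rfl⟩
    exact ⟨f y, by simp⟩)

lemma ModQ.map_mk (q : ℕ) {M N : Type u} [AddCommGroup M] [AddCommGroup N] (f : M →+ N) (x : M) :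
    ModQ.map q f (toModQ q M x) = toModQ q N (f x) := rfl

/-- The functor `R ↦ K^M_2(R) / q`. -/
noncomputable def K2ModFunctor (q : ℕ) : CommRingCat.{u} ⥤ AddCommGrpCat.{u} where
  obj R := AddCommGrpCat.of (ModQ q (K2 R))
  map f := AddCommGrpCat.ofHom (ModQ.map q (K2.map f.hom))
  map_id R := by
    ext x
    obtain ⟨y, rfl⟩ := QuotientAddGroup.mk'_surjective _ x
    rw [CommRingCat.hom_id, K2.map_id]; rfl
  map_comp f g := by
    ext x
    obtain ⟨y, rfl⟩ := QuotientAddGroup.mk'_surjective _ x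
    rw [CommRingCat.hom_comp, K2.map_comp]; rfl

/-- The natural transformation `K^M_2 → K^M_2 / q`. -/
noncomputable def K2ModProj (q : ℕ) : K2Functor.{u} ⟶ K2ModFunctor.{u} q where
  app R := AddCommGrpCat.ofHom (toModQ q (K2 R))
  naturality _ _ _ := rfl

end

end Pool.Agent.H17.KE
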