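import Pool.Agent.H17.KE.Cx
import Pool.Agent.H17.KE.Hom

/-! The restriction map for one-cycles: definitions and statement. -/

open CategoryTheory TopologicalSpace Opposite AlgebraicGeometry Limits

universe u

namespace Pool.Agent.H17.KE

noncomputable section

/-- Global sections as classes of degree zero. -/
def LocFam.toH0 {X : TopCat.{u}} (L : LocFam X) : L.S ⊤ →+ Sheaf.H L.sheaf 0 :=
  (Sheaf.H.equiv₀ L.sheaf (T := (⊤ : Opens X)) isTerminalTop).symm.toAddMonoidHom

section sheaves

variable (X : Scheme.{u})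

/-- The category of sheaves of abelian groups on the Zariski space of `X`. -/
abbrev AbSh := Sheaf (Opens.grothendieckTopology X.toTopCat) AddCommGrpCat.{u}

/-- The presheaf `U ↦ K^M_2(O(U))`. -/
def K2Pre : (Opens X.toTopCat)ᵒᵖ ⥤ AddCommGrpCat.{u} := X.presheaf ⋙ K2Functor

/-- The Milnor K-sheaf `K^M_{2,X}`. -/
def K2Sh : AbSh X := (presheafToSheaf _ _).obj (K2Pre X)

/-- The presheaf `U ↦ K^M_2(O(U)) / q`. -/
def K2ModPre (q : ℕ) : (Opens X.toTopCat)ᵒᵖ ⥤ AddCommGrpCat.{u} := X.presheaf ⋙ K2ModFunctor q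

/-- The sheaf `K^M_{2,X} / q`. -/
def K2ModSh (q : ℕ) : AbSh X := (presheafToSheaf _ _).obj (K2ModPre X q)

end sheaves

section reduction

variable {X Y : Scheme.{u}} (i : Y ⟶ X) (q : ℕ)

/-- The direct image `i_* F`. -/
def dirIm (F : AbSh Y) : AbSh X :=
  (TopCat.Sheaf.pushforward AddCommGrpCat.{u} i.base).obj F

/-- The natural map of presheaves `K^M_2(O_X(U)) → (K^M_{2,Y} / q)(i⁻¹ U)`. -/
def redPre : K2Pre X ⟶ (dirIm i (K2ModSh Y q)).obj :=
  (Functor.whiskerRight i.c K2Functor) ≫
    (Functor.whiskerLeft ((Opens.map i.base).op ⋙ Y.presheaf) (K2ModProj q)) ≫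
    (Functor.whiskerLeft (Opens.map i.base).op
      (toSheafify (Opens.grothendieckTopology Y.toTopCat) (K2ModPre Y q)))

/-- The natural map of sheaves `K^M_{2,X} → i_* (K^M_{2,Y} / q)` for a morphism `i : Y → X`. -/
def redSh : K2Sh X ⟶ dirIm i (K2ModSh Y q) :=
  ⟨sheafifyLift (Opens.grothendieckTopology X.toTopCat) (redPre i q) (dirIm i (K2ModSh Y q)).2⟩

end reduction

section gersten

variable (X : Scheme.{u}) [IsIntegral X]

/-- The map `K^M_2(O(U)) → K_2(k(X))` (for families over `U`). -/
def toC0Fam (U : X.Opens) : K2 Γ(X, U) →+ (fam0 X).S U where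
  toFun a := ⟨fun x => K2.map ((algebraMap (X.presheaf.stalk x.1) X.functionField).comp
      (X.presheaf.germ U x.1 x.2).hom) a, by
    intro x
    refine ⟨⊤, trivial, K2.map ((algebraMap (X.presheaf.stalk x.1) X.functionField).comp
      (X.presheaf.germ U x.1 x.2).hom) a, fun y _ => ?_⟩
    have key : ∀ z : U, (algebraMap (X.presheaf.stalk z.1) X.functionField).comp
        (X.presheaf.germ U z.1 z.2).hom = (X.presheaf.germ U (genericPoint X)
          ((genericPoint_specializes z.1).mem_open U.isOpen z.2)).hom := by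
      intro z
      exact congrArg (fun f => f.hom) (TopCat.Presheaf.germ_stalkSpecializes X.presheaf z.2
        (genericPoint_specializes z.1))
    show K2.map _ a = K2.map _ a
    rw [key y, key x]⟩
  map_zero' := by
    apply Subtype.ext
    funext x
    exact map_zero _
  map_add' a b := by
    apply Subtype.ext
    funext x
    exact map_add _ _ _

/-- The presheaf map `K^M_2(O(U)) → C0(U)`. -/
def toC0Pre : K2Pre X ⟶ (fam0 X).sheaf.obj where
  app U := AddCommGrpCat.ofHom (toC0Fam X U.unop)
  naturality {U V} g := by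
    ext a
    apply Subtype.ext
    funext x
    have h1 : ((algebraMap (X.presheaf.stalk x.1) X.functionField).comp
        (X.presheaf.germ V.unop x.1 x.2).hom).comp (X.presheaf.map g).hom =
        (algebraMap (X.presheaf.stalk x.1) X.functionField).comp
          (X.presheaf.germ U.unop x.1 (g.unop.le x.2)).hom := by
      rw [RingHom.comp_assoc]
      congr 1
      exact congrArg (fun f => f.hom) (TopCat.Presheaf.germ_res X.presheaf g.unop x.1 x.2)
    have h2 := congrArg (fun f : _ →+* _ => K2.map f (a : K2 (X.presheaf.obj U))) h1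
    have h3 := congrArg (fun f : _ →+ _ => f (a : K2 (X.presheaf.obj U)))
      (K2.map_comp (X.presheaf.map g).hom ((algebraMap (X.presheaf.stalk x.1) X.functionField).comp
        (X.presheaf.germ V.unop x.1 x.2).hom))
    exact h3.symm.trans h2

/-- The map of sheaves `K^M_{2,X} → C0`. -/
def toC0 : K2Sh X ⟶ (fam0 X).sheaf :=
  ⟨sheafifyLift (Opens.grothendieckTopology X.toTopCat) (toC0Pre X) (fam0 X).sheaf.2⟩

variable [IsLocallyNoetherian X]

/-- The Gersten conjecture for `K^M_{2,X}`: the Gersten complex is a resolution of `K^M_{2,X}`. -/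
structure GerstenK2 : Prop where
  w0 : toC0 X ≫ d0 X = 0
  w1 : d0 X ≫ d1 X = 0
  mono : Mono (toC0 X)
  exact0 : (ShortComplex.mk (toC0 X) (d0 X) w0).Exact
  exact1 : (ShortComplex.mk (d0 X) (d1 X) w1).Exact
  epi : Epi (d1 X)

variable {X}

/-- The map from `C0` to the kernel of `C1 → C2`. -/
def toZ1 (h : GerstenK2 X) : (fam0 X).sheaf ⟶ kernel (d1 X) := kernel.lift (d1 X) (d0 X) h.w1

lemma toC0_toZ1 (h : GerstenK2 X) : toC0 X ≫ toZ1 h = 0 := by
  rw [← cancel_mono (kernel.ι (d1 X)), Category.assoc, toZ1, kernel.lift_ι, h.w0, zero_comp]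

lemma short1 (h : GerstenK2 X) :
    (ShortComplex.mk (kernel.ι (d1 X)) (d1 X) (kernel.condition _)).ShortExact := by
  have := h.epi
  exact ShortComplex.ShortExact.mk' (ShortComplex.exact_kernel _) inferInstance this

lemma short2 (h : GerstenK2 X) :
    (ShortComplex.mk (toC0 X) (toZ1 h) (toC0_toZ1 h)).ShortExact := by
  have h1 := h.mono
  refine ShortComplex.ShortExact.mk' ?_ h1 ?_
  · rw [ShortComplex.exact_iff_exact_up_to_refinements]
    intro A x hx
    have hex := h.exact0
    rw [ShortComplex.exact_iff_exact_up_to_refinements] at hex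
    have hx' : x ≫ d0 X = 0 := by
      have h2 : toZ1 h ≫ kernel.ι (d1 X) = d0 X := kernel.lift_ι _ _ _
      rw [← h2, ← Category.assoc]
      have h3 : x ≫ toZ1 h = 0 := hx
      rw [h3, zero_comp]
    exact hex x hx'
  · show Epi (toZ1 h)
    rw [epi_iff_surjective_up_to_refinements]
    intro A y
    have hex := h.exact1
    rw [ShortComplex.exact_iff_exact_up_to_refinements] at hex
    obtain ⟨A', p, hp, x, hx⟩ := hex (y ≫ kernel.ι (d1 X)) (by
      show (y ≫ kernel.ι (d1 X)) ≫ d1 X = 0
      rw [Category.assoc, kernel.condition, comp_zero])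
    refine ⟨A', p, hp, x, ?_⟩
    rw [← cancel_mono (kernel.ι (d1 X)), Category.assoc, Category.assoc, toZ1, kernel.lift_ι]
    exact hx

/-- The homomorphism from the group `C2(X)` of cycles of codimension two to
`H^2(X, K^M_{2,X})`: the composite of the connecting homomorphisms of the Gersten resolution. -/
def cyc (h : GerstenK2 X) : (fam2 X).S ⊤ →+ Sheaf.H (K2Sh X) 2 :=
  ((short2 h).extClass.postcomp _ (show 1 + 1 = 2 from rfl)).comp
    (((short1 h).extClass.postcomp _ (zero_add 1)).comp
      (fam2 X).toH0)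

/-- The Chow group `CH^2(X)`: cycles of codimension two modulo rational equivalence. -/
def CH2 (X : Scheme.{u}) [IsLocallyNoetherian X] : Type u :=
  (fam2 X).S ⊤ ⧸ (d1Fam X ⊤).range

instance (X : Scheme.{u}) [IsLocallyNoetherian X] : AddCommGroup (CH2 X) :=
  inferInstanceAs (AddCommGroup ((fam2 X).S ⊤ ⧸ (d1Fam X ⊤).range))

end gersten

end

end Pool.Agent.H17.KE
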