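import Pool.Agent.H17.KE.K2

/-! Orders and tame symbols. -/

open scoped WithZero

universe u v

namespace Pool.Agent.H17.KE

section ord

variable (R : Type u) [CommRing R] [Nontrivial R] [IsNoetherianRing R] [Ring.KrullDimLE 1 R]
  (K : Type u) [Field K] [Algebra R K] [IsFractionRing R K]

/-- The order homomorphism `Kˣ → ℤ` of a one-dimensional noetherian ring with total fraction
ring `K`: `ord (a/b) = length (R/a) - length (R/b)`. -/
noncomputable def ordZ : Additive Kˣ →+ ℤ :=
  AddMonoidHom.comp (AddEquiv.additiveMultiplicative ℤ).toAddMonoidHom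
    (MonoidHom.toAdditive
      ((WithZero.unitsWithZeroEquiv (α := Multiplicative ℤ)).toMonoidHom.comp
        (Units.map (Ring.ordFrac R : K →*₀ ℤᵐ⁰).toMonoidHom)))

lemma ordZ_spec (f : Kˣ) : Ring.ordFrac R (f : K) = WithZero.exp (ordZ R K (Additive.ofMul f)) := by
  have h := WithZero.coe_unitsWithZeroEquiv_eq_units_val
    (Units.map (Ring.ordFrac R : K →*₀ ℤᵐ⁰).toMonoidHom f)
  exact h.symm

lemma ordZ_mul (f g : Kˣ) : ordZ R K (Additive.ofMul (f * g)) =
    ordZ R K (Additive.ofMul f) + ordZ R K (Additive.ofMul g) :=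
  map_add (ordZ R K) (Additive.ofMul f) (Additive.ofMul g)

end ord

section tame

set_option linter.unusedSectionVars false

variable (R : Type u) [CommRing R] [IsDomain R] [IsDiscreteValuationRing R]
  (K : Type u) [Field K] [Algebra R K] [IsFractionRing R K]

/-- The valuation of a unit of the fraction field of a discrete valuation ring. -/
noncomputable def vZ (f : Kˣ) : ℤ := ordZ R K (Additive.ofMul f)

lemma vZ_mul (f g : Kˣ) : vZ R K (f * g) = vZ R K f + vZ R K g := ordZ_mul R K f g

lemma vZ_one : vZ R K 1 = 0 := map_zero (ordZ R K)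

lemma vZ_inv (f : Kˣ) : vZ R K f⁻¹ = - vZ R K f := map_neg (ordZ R K) (Additive.ofMul f)

lemma vZ_zpow (f : Kˣ) (n : ℤ) : vZ R K (f ^ n) = n * vZ R K f := by
  have := map_zsmul (ordZ R K) n (Additive.ofMul f)
  rw [smul_eq_mul] at this
  exact this

lemma ordFrac_eq_exp (f : Kˣ) : Ring.ordFrac R (f : K) = WithZero.exp (vZ R K f) :=
  ordZ_spec R K f

lemma vZ_algebraMap (u : Rˣ) : vZ R K (Units.map (algebraMap R K : R →* K) u) = 0 := by
  have h := ordFrac_eq_exp R K (Units.map (algebraMap R K : R →* K) u)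
  have h2 : Ring.ordFrac R (algebraMap R K (u : R)) = 1 := Ring.ordFrac_of_isUnit u.isUnit
  rw [Units.coe_map] at h
  have h3 : Ring.ordFrac R ((algebraMap R K : R →* K) (u : R)) = 1 := h2
  rw [h3] at h
  exact (WithZero.exp_injective (h.symm.trans WithZero.exp_zero.symm))

lemma exists_unit_of_vZ (f : Kˣ) (h : vZ R K f = 0) :
    ∃ u : Rˣ, Units.map (algebraMap R K : R →* K) u = f := by
  have h1 : Ring.ordFrac R (1 : K) = Ring.ordFrac R (f : K) := by
    rw [ordFrac_eq_exp, h, map_one, WithZero.exp_zero]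
  obtain ⟨u, hu⟩ := Ring.associated_of_ordFrac_eq (R := R) (1 : K) (f : K) h1
  refine ⟨u, Units.ext ?_⟩
  rw [← hu]
  simp [Units.smul_def, Algebra.smul_def]

/-- The unit of `R` with a given image in `K` (junk value `1` if there is none). -/
noncomputable def unitOf (f : Kˣ) : Rˣ := by
  classical
  exact if h : ∃ u : Rˣ, Units.map (algebraMap R K : R →* K) u = f then h.choose else 1

lemma algebraMap_units_injective :
    Function.Injective (Units.map (algebraMap R K : R →* K)) :=
  Units.map_injective (IsFractionRing.injective R K)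

lemma unitOf_spec (f : Kˣ) (h : vZ R K f = 0) :
    Units.map (algebraMap R K : R →* K) (unitOf R K f) = f := by
  have h' := exists_unit_of_vZ R K f h
  unfold unitOf
  rw [dif_pos h']
  exact h'.choose_spec

lemma unitOf_map (u : Rˣ) : unitOf R K (Units.map (algebraMap R K : R →* K) u) = u :=
  algebraMap_units_injective R K (unitOf_spec R K _ (vZ_algebraMap R K u))

lemma unitOf_mul (f g : Kˣ) (hf : vZ R K f = 0) (hg : vZ R K g = 0) :
    unitOf R K (f * g) = unitOf R K f * unitOf R K g := by
  apply algebraMap_units_injective R K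
  rw [unitOf_spec R K _ (by rw [vZ_mul, hf, hg, add_zero]), map_mul, unitOf_spec R K _ hf,
    unitOf_spec R K _ hg]

/-- The element `(-1)^(v f * v g) * f^(v g) * g^(- v f)` of valuation zero. -/
noncomputable def tameElt (f g : Kˣ) : Kˣ :=
  (-1) ^ (vZ R K f * vZ R K g) * f ^ (vZ R K g) * g ^ (-(vZ R K f))

lemma vZ_neg_one : vZ R K (-1) = 0 := by
  have := vZ_algebraMap R K (-1)
  rw [← this]
  congr 1
  ext
  simp

lemma vZ_tameElt (f g : Kˣ) : vZ R K (tameElt R K f g) = 0 := by
  unfold tameElt
  rw [vZ_mul, vZ_mul, vZ_zpow, vZ_zpow, vZ_zpow, vZ_neg_one]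
  ring

lemma tameElt_mul_left (f f' g : Kˣ) :
    tameElt R K (f * f') g = tameElt R K f g * tameElt R K f' g := by
  unfold tameElt
  rw [vZ_mul, add_mul, zpow_add, mul_zpow, neg_add, zpow_add]
  simp only [mul_assoc, mul_comm, mul_left_comm]

lemma tameElt_mul_right (f g g' : Kˣ) :
    tameElt R K f (g * g') = tameElt R K f g * tameElt R K f g' := by
  unfold tameElt
  rw [vZ_mul, mul_add, zpow_add, mul_zpow, zpow_add]
  simp only [mul_assoc, mul_comm, mul_left_comm]

/-- Reduction to the residue field of a unit of `K` of valuation zero. -/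
noncomputable def redK (f : Kˣ) : (IsLocalRing.ResidueField R)ˣ :=
  Units.map (IsLocalRing.residue R : R →* IsLocalRing.ResidueField R) (unitOf R K f)

lemma redK_mul (f g : Kˣ) (hf : vZ R K f = 0) (hg : vZ R K g = 0) :
    redK R K (f * g) = redK R K f * redK R K g := by
  unfold redK
  rw [unitOf_mul R K f g hf hg, map_mul]

lemma redK_map (u : Rˣ) : redK R K (Units.map (algebraMap R K : R →* K) u) =
    Units.map (IsLocalRing.residue R : R →* IsLocalRing.ResidueField R) u := by
  unfold redK
  rw [unitOf_map]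

lemma redK_one : redK R K 1 = 1 := by
  have := redK_map R K 1
  rw [map_one] at this
  rw [this, map_one]

/-- If `f + g = 1` and `f` has positive valuation then `g` is a unit congruent to `1`. -/
lemma redK_of_add_eq_one (f g : Kˣ) (h : (f : K) + g = 1) (hf : 0 < vZ R K f) :
    vZ R K g = 0 ∧ redK R K g = 1 := by
  -- f = algebraMap a with a in the maximal ideal
  obtain ⟨a, ha⟩ : ∃ a : R, algebraMap R K a = f ∧ a ∈ IsLocalRing.maximalIdeal R := by
    obtain ⟨ϖ, hϖ⟩ := IsDiscreteValuationRing.exists_irreducible R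
    obtain ⟨n, hn⟩ : ∃ n : ℕ, vZ R K f = n + 1 := by
      obtain ⟨m, hm⟩ := Int.eq_ofNat_of_zero_le hf.le
      cases m with
      | zero => simp [hm] at hf
      | succ m => exact ⟨m, by rw [hm]; push_cast; ring⟩
    have h0 : algebraMap R K ϖ ≠ 0 := by
      intro h0
      exact hϖ.ne_zero (IsFractionRing.injective R K (by rw [h0, map_zero]))
    have h1 : Ring.ordFrac R ((algebraMap R K ϖ) ^ (n + 1)) = Ring.ordFrac R (f : K) := by
      rw [ordFrac_eq_exp, hn, map_pow, Ring.ordFrac_irreducible (K := K) hϖ, ← WithZero.exp_nsmul]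
      congr 1
      simp
    obtain ⟨u, hu⟩ := Ring.associated_of_ordFrac_eq (R := R) _ _ h1
    refine ⟨u * ϖ ^ (n + 1), ?_, ?_⟩
    · rw [← hu, map_mul, map_pow]
      simp [Units.smul_def, Algebra.smul_def]
    · apply Ideal.mul_mem_left
      rw [pow_succ]
      apply Ideal.mul_mem_left
      exact (IsLocalRing.mem_maximalIdeal ϖ).mpr hϖ.not_isUnit
  obtain ⟨ha1, ha2⟩ := ha
  have hu : IsUnit (1 - a) := by
    by_contra hu
    have h2 : (1 - a) ∈ IsLocalRing.maximalIdeal R := (IsLocalRing.mem_maximalIdeal _).mpr hu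
    have h3 : (1 : R) ∈ IsLocalRing.maximalIdeal R := by
      have := Ideal.add_mem _ h2 ha2
      rwa [sub_add_cancel] at this
    exact (Ideal.ne_top_iff_one _).mp (IsLocalRing.maximalIdeal.isMaximal R).ne_top h3
  obtain ⟨u, hu⟩ := hu
  have hg : Units.map (algebraMap R K : R →* K) u = g := by
    apply Units.ext
    rw [Units.coe_map]
    change algebraMap R K (u : R) = g
    rw [hu, map_sub, map_one, ha1, ← h]
    ring
  constructor
  · rw [← hg]; exact vZ_algebraMap R K u
  · rw [← hg, redK_map]
    apply Units.ext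
    rw [Units.coe_map]
    change IsLocalRing.residue R (u : R) = 1
    rw [hu, map_sub, map_one]
    have : IsLocalRing.residue R a = 0 := (IsLocalRing.residue_eq_zero_iff a).mpr ha2
    rw [this, sub_zero]

lemma redK_zpow (f : Kˣ) (hf : vZ R K f = 0) (n : ℤ) : redK R K (f ^ n) = redK R K f ^ n := by
  obtain ⟨u, rfl⟩ := exists_unit_of_vZ R K f hf
  rw [← map_zpow, redK_map, redK_map, map_zpow]

lemma tame_steinberg (f g : Kˣ) (h : (f : K) + g = 1) : redK R K (tameElt R K f g) = 1 := by
  rcases lt_trichotomy (vZ R K f) 0 with hf | hf | hf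
  · -- negative valuation : look at f⁻¹ and -g/f
    have hf' : 0 < vZ R K f⁻¹ := by rw [vZ_inv]; linarith
    have h2 : ((f⁻¹ : Kˣ) : K) + ((-1 * g * f⁻¹ : Kˣ) : K) = 1 := by
      have hne : (f : K) ≠ 0 := f.ne_zero
      push_cast
      field_simp
      rw [← h]; ring
    obtain ⟨h3, h4⟩ := redK_of_add_eq_one R K _ _ h2 hf'
    have h5 : vZ R K g = vZ R K f := by
      rw [vZ_mul, vZ_mul, vZ_neg_one, vZ_inv] at h3
      linarith
    have h6 : tameElt R K f g = (-1 * g * f⁻¹) ^ (-(vZ R K f)) := by
      unfold tameElt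
      rw [h5, mul_zpow, mul_zpow, inv_zpow, zpow_neg, zpow_neg, zpow_neg, inv_inv]
      have hp : ((-1 : Kˣ)) ^ (vZ R K f * vZ R K f) = ((-1 : Kˣ) ^ (vZ R K f))⁻¹ := by
        rcases Int.even_or_odd (vZ R K f) with he | ho
        · rw [he.neg_one_zpow, (he.mul_right _).neg_one_zpow, inv_one]
        · rw [ho.neg_one_zpow, (ho.mul ho).neg_one_zpow]
          simp
      rw [hp]
      simp only [mul_assoc, mul_comm, mul_left_comm]
    rw [h6, redK_zpow R K _ h3, h4, one_zpow]
  · -- f has valuation zero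
    rcases lt_trichotomy (vZ R K g) 0 with hg | hg | hg
    · exfalso
      -- g negative implies f negative
      have hg' : 0 < vZ R K g⁻¹ := by rw [vZ_inv]; linarith
      have h2 : ((g⁻¹ : Kˣ) : K) + ((-1 * f * g⁻¹ : Kˣ) : K) = 1 := by
        have hne : (g : K) ≠ 0 := g.ne_zero
        push_cast
        field_simp
        rw [← h]; ring
      obtain ⟨h3, -⟩ := redK_of_add_eq_one R K _ _ h2 hg'
      rw [vZ_mul, vZ_mul, vZ_neg_one, vZ_inv] at h3
      linarith
    · have : tameElt R K f g = 1 := by
        unfold tameElt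
        rw [hf, hg]; simp
      rw [this, redK_one]
    · obtain ⟨-, h4⟩ := redK_of_add_eq_one R K g f (by rw [add_comm]; exact h) hg
      have : tameElt R K f g = f ^ (vZ R K g) := by
        unfold tameElt
        rw [hf]; simp
      rw [this, redK_zpow R K _ hf, h4, one_zpow]
  · obtain ⟨h3, h4⟩ := redK_of_add_eq_one R K f g h hf
    have : tameElt R K f g = g ^ (-(vZ R K f)) := by
      unfold tameElt
      rw [h3]; simp
    rw [this, redK_zpow R K _ h3, h4, one_zpow]

/-- The tame symbol `K_2(K) → κˣ` of a discrete valuation ring: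
`{f, g} ↦ (-1)^(v f * v g) f^(v g) / g^(v f)` modulo the maximal ideal. -/
noncomputable def tame : K2 K →+ Additive (IsLocalRing.ResidueField R)ˣ :=
  K2.lift (fun f g => Additive.ofMul (redK R K (tameElt R K f g)))
    (fun a b c => by
      rw [tameElt_mul_left, redK_mul R K _ _ (vZ_tameElt R K a c) (vZ_tameElt R K b c), ofMul_mul])
    (fun a b c => by
      rw [tameElt_mul_right, redK_mul R K _ _ (vZ_tameElt R K a b) (vZ_tameElt R K a c), ofMul_mul])
    (fun a b h => by
      rw [tame_steinberg R K a b h, ofMul_one])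

lemma tame_sym (f g : Kˣ) : tame R K (sym f g) =
    Additive.ofMul (redK R K (tameElt R K f g)) := rfl

/-- The tame symbol of `{u, g}`, `u` a unit of `R`. -/
lemma tame_unit_left (u : Rˣ) (g : Kˣ) :
    tame R K (sym (Units.map (algebraMap R K : R →* K) u) g) =
      vZ R K g • Additive.ofMul
        (Units.map (IsLocalRing.residue R : R →* IsLocalRing.ResidueField R) u) := by
  rw [tame_sym]
  have : tameElt R K (Units.map (algebraMap R K : R →* K) u) g =
      (Units.map (algebraMap R K : R →* K) u) ^ (vZ R K g) := by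
    unfold tameElt
    rw [vZ_algebraMap]; simp
  rw [this, redK_zpow R K _ (vZ_algebraMap R K u), redK_map, ofMul_zpow]

end tame

end Pool.Agent.H17.KE
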